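import Pool.Agent.N935.WD.JenD

/-!
# The number of zeros: assembly of the blocks
-/

set_option linter.unusedSectionVars false

namespace Pool.Agent.N935.WD

open MeasureTheory Set Filter Topology Complex Metric
open Pool.Agent.R399.TW (pt pt_re pt_im pt_cont)

variable {c₁ C₁ L : ℝ} {f : ℂ → ℂ} {a b x M : ℝ} {w : ℝ → ℝ}

lemma geo1 {L r P : ℝ} (hL : 0 < L) (hLr : 8 ≤ L * r) (hP : 1 ≤ P) :
    (4 * (P * r) - r) ^ 2 + (1 / L) ^ 2 ≤ (4 * (P * r) - r / 2) ^ 2 * (1 - 2 * (P⁻¹ / 200)) := by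
  obtain ⟨u, hu⟩ : ∃ u : ℝ, u = 1 / L := ⟨_, rfl⟩
  obtain ⟨Q, hQ⟩ : ∃ Q : ℝ, Q = P⁻¹ := ⟨_, rfl⟩
  have hu0 : 0 < u := by rw [hu]; positivity
  have hP0 : 0 < P := by linarith
  have hQ0 : 0 < Q := by rw [hQ]; positivity
  have hPQ : P * Q = 1 := by rw [hQ]; field_simp
  have hur : 8 * u ≤ r := by
    rw [hu, mul_one_div, div_le_iff₀ hL]
    linarith
  have hr0 : 0 < r := by linarith
  rw [← hu, ← hQ]
  have h1 : u ^ 2 ≤ r ^ 2 / 64 := by nlinarith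
  have h2 : (4 * (P * r) - r / 2) ^ 2 ≤ (4 * (P * r)) ^ 2 := by
    have : r ≤ P * r := by nlinarith
    exact pow_le_pow_left₀ (by linarith) (by linarith) 2
  have h3 : (4 * (P * r) - r / 2) ^ 2 * Q ≤ 16 * (P * r ^ 2) := by
    calc (4 * (P * r) - r / 2) ^ 2 * Q ≤ (4 * (P * r)) ^ 2 * Q :=
          mul_le_mul_of_nonneg_right h2 hQ0.le
      _ = 16 * (P * r ^ 2) * (P * Q) := by ring
      _ = _ := by rw [hPQ, mul_one]
  have h4 : r ^ 2 ≤ P * r ^ 2 := by nlinarith [sq_nonneg r]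
  nlinarith

lemma geo2 {L P : ℝ} (hL : 0 < L) (hP : 1 ≤ P) :
    (4 * (P * (8 / L)) - 0) ^ 2 + (1 / L) ^ 2 ≤
      (4 * (P * (8 / L)) - -(1 / (4 * L))) ^ 2 * (1 - 2 * (P⁻¹ / 200)) := by
  obtain ⟨u, hu⟩ : ∃ u : ℝ, u = 1 / L := ⟨_, rfl⟩
  obtain ⟨Q, hQ⟩ : ∃ Q : ℝ, Q = P⁻¹ := ⟨_, rfl⟩
  have hu0 : 0 < u := by rw [hu]; positivity
  have hP0 : 0 < P := by linarith
  have hQ0 : 0 < Q := by rw [hQ]; positivity
  have hPQ : P * Q = 1 := by rw [hQ]; field_simp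
  have e1 : 8 / L = 8 * u := by rw [hu]; ring
  have e2 : 1 / (4 * L) = u / 4 := by rw [hu]; field_simp
  rw [e1, e2, ← hu, ← hQ]
  have h2 : (4 * (P * (8 * u)) - -(u / 4)) ^ 2 ≤ (33 * (P * u)) ^ 2 := by
    have : u ≤ P * u := by nlinarith
    have h0 : 0 < P * u := by positivity
    exact pow_le_pow_left₀ (by linarith) (by linarith) 2
  have h3 : (4 * (P * (8 * u)) - -(u / 4)) ^ 2 * Q ≤ 1089 * (P * u ^ 2) := by
    calc (4 * (P * (8 * u)) - -(u / 4)) ^ 2 * Q ≤ (33 * (P * u)) ^ 2 * Q :=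
          mul_le_mul_of_nonneg_right h2 hQ0.le
      _ = 1089 * (P * u ^ 2) * (P * Q) := by ring
      _ = _ := by rw [hPQ, mul_one]
  have h4 : u ^ 2 ≤ P * u ^ 2 := by nlinarith [sq_nonneg u]
  nlinarith

open Classical in
/-- the pointwise decomposition into blocks -/
lemma split (hL : 0 < L) {A A₁ : ℝ} (hA : 0 ≤ A) (hA₁ : A₁ = max A 8) (Z : Finset ℂ)
    (m : ℂ → ℕ) (hZ : ∀ s ∈ Z, s.re ≤ 1) {J : ℕ} (hJ : L ≤ J) (τ : ℝ) :
    ∑ s ∈ Z.filter (fun s => 1 / 2 + A / L ≤ s.re ∧ |s.im - τ| ≤ 1 / L), (m s : ℝ) ≤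
      (if A < 8 then 1 else 0) * ∑ s ∈ Z.filter (fun s => (1 / 2 + 0 ≤ s.re ∧
        s.re ≤ 1 / 2 + 2 * (8 / L)) ∧ |s.im - τ| ≤ 1 / L), (m s : ℝ) +
      ∑ j ∈ Finset.range J, ∑ s ∈ Z.filter (fun s => (1 / 2 + 2 ^ j * (A₁ / L) ≤ s.re ∧
        s.re ≤ 1 / 2 + 2 * (2 ^ j * (A₁ / L))) ∧ |s.im - τ| ≤ 1 / L), (m s : ℝ) := by
  simp_rw [Finset.sum_filter]
  rw [Finset.sum_comm, Finset.mul_sum, ← Finset.sum_add_distrib]
  refine Finset.sum_le_sum fun s hs => ?_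
  have hms : (0 : ℝ) ≤ m s := Nat.cast_nonneg _
  have hA1p : 8 ≤ A₁ := by rw [hA₁]; exact le_max_right _ _
  have h1 : (0 : ℝ) ≤ (if A < 8 then 1 else 0) * (if (1 / 2 + 0 ≤ s.re ∧
      s.re ≤ 1 / 2 + 2 * (8 / L)) ∧ |s.im - τ| ≤ 1 / L then (m s : ℝ) else 0) := by
    split_ifs <;> simp
  have h2 : ∀ j ∈ Finset.range J, (0 : ℝ) ≤ (if (1 / 2 + 2 ^ j * (A₁ / L) ≤ s.re ∧
        s.re ≤ 1 / 2 + 2 * (2 ^ j * (A₁ / L))) ∧ |s.im - τ| ≤ 1 / L then (m s : ℝ) else 0) := by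
    intro j _
    split_ifs <;> simp
  by_cases hb : 1 / 2 + A / L ≤ s.re ∧ |s.im - τ| ≤ 1 / L
  · rw [if_pos hb]
    by_cases hc : 1 / 2 + A₁ / L ≤ s.re
    · -- a block `j`
      have hs1 := hZ s hs
      have hy : 1 ≤ (s.re - 1 / 2) / (A₁ / L) := by
        rw [le_div_iff₀ (by positivity)]
        linarith
      obtain ⟨j, hj1, hj2⟩ := exists_nat_pow_near hy (by norm_num : (1 : ℝ) < 2)
      rw [le_div_iff₀ (by positivity)] at hj1
      rw [div_lt_iff₀ (by positivity), pow_succ] at hj2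
      have hjJ : j < J := by
        have h3 : (j : ℝ) < 2 ^ j := by exact_mod_cast Nat.lt_two_pow_self
        have h4 : (2 : ℝ) ^ j * A₁ ≤ 1 / 2 * L := by
          have h5 : (2 : ℝ) ^ j * (A₁ / L) * L = 2 ^ j * A₁ := by field_simp
          rw [← h5]
          exact mul_le_mul_of_nonneg_right (by linarith) hL.le
        have h6 : (0 : ℝ) < 2 ^ j := by positivity
        have h7 : (j : ℝ) < J := by nlinarith
        exact_mod_cast h7
      have h5 := Finset.single_le_sum h2 (Finset.mem_range.mpr hjJ)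
      rw [if_pos ⟨⟨by linarith, by linarith⟩, hb.2⟩] at h5
      linarith
    · -- the first block
      rw [not_le] at hc
      have hA8 : A < 8 := by
        by_contra hcon
        rw [not_lt] at hcon
        rw [hA₁, max_eq_left hcon] at hc
        linarith [hb.1]
      have e8 : A₁ = 8 := by rw [hA₁]; exact max_eq_right hA8.le
      have hAL : 0 ≤ A / L := by positivity
      have h8L : 0 < 8 / L := by positivity
      rw [e8] at hc
      have h3 : (1 / 2 + 0 ≤ s.re ∧ s.re ≤ 1 / 2 + 2 * (8 / L)) ∧ |s.im - τ| ≤ 1 / L :=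
        ⟨⟨by linarith [hb.1], by linarith⟩, hb.2⟩
      rw [if_pos hA8, if_pos h3, one_mul]
      have h4 := Finset.sum_nonneg h2
      linarith
  · rw [if_neg hb]
    exact add_nonneg h1 (Finset.sum_nonneg h2)

open Classical in
/-- **the total count** -/
lemma Hyp.total (h : Hyp c₁ C₁ L f a b x M w) (Z : Finset ℂ) (m : ℂ → ℕ)
    (hZ : ∀ s ∈ Z, s.re ≤ 1 ∧ m s ≤ analyticOrderNatAt (fun z => 1 + f z) s) {A : ℝ}
    (hA : 0 ≤ A) :
    ∫ t in a..b, w t * ∑ s ∈ Z.filter (fun s => 1 / 2 + A / L ≤ s.re ∧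
      |s.im - (t + x)| ≤ 1 / L), (m s : ℝ) ≤
      200 * C₁ * (3 + Real.exp c₁ / c₁ ^ 2) * (Real.exp (9 * c₁ / 4) + 1 / c₁) *
        Real.exp (-(c₁ / 4 * A)) * M := by
  have hL : 0 < L := by linarith [h.L0]
  have hc0 := h.c0
  have hC0 := h.C0
  have hM := h.M0
  have hexp := Real.exp_pos c₁
  obtain ⟨K₀, hK₀⟩ : ∃ K₀ : ℝ, K₀ = 200 * C₁ * (3 + Real.exp c₁ / c₁ ^ 2) := ⟨_, rfl⟩
  have hK0 : 0 < K₀ := by rw [hK₀]; positivity
  have hm : ∀ s ∈ Z, m s ≤ analyticOrderNatAt (fun z => 1 + f z) s := fun s hs => (hZ s hs).2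
  by_cases hAL : A / L ≤ 1 / 2
  swap
  · have hF : ∀ t : ℝ, Z.filter (fun s => 1 / 2 + A / L ≤ s.re ∧
        |s.im - (t + x)| ≤ 1 / L) = ∅ := by
      intro t
      refine Finset.filter_eq_empty_iff.mpr fun s hs hh => ?_
      have := (hZ s hs).1
      linarith [hh.1]
    simp_rw [hF, Finset.sum_empty, mul_zero, intervalIntegral.integral_zero]
    positivity
  obtain ⟨A₁, hA₁⟩ : ∃ A₁ : ℝ, A₁ = max A 8 := ⟨_, rfl⟩
  have hA18 : 8 ≤ A₁ := by rw [hA₁]; exact le_max_right _ _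
  have hA1A : A ≤ A₁ := by rw [hA₁]; exact le_max_left _ _
  obtain ⟨J, hJ⟩ : ∃ J : ℕ, L ≤ J := exists_nat_ge L
  -- the bounds for the blocks
  have hneg : ∫ t in a..b, w t * ∑ s ∈ Z.filter (fun s => (1 / 2 + 0 ≤ s.re ∧
      s.re ≤ 1 / 2 + 2 * (8 / L)) ∧ |s.im - (t + x)| ≤ 1 / L), (m s : ℝ) ≤
      K₀ * M * Real.exp (c₁ / 4) := by
    have h1 := h.block (r := 8 / L) (d := -(1 / (4 * L))) (e := 0) (by positivity)
      (by rw [div_le_iff₀ hL]; linarith [h.L0]) (by rw [mul_div_cancel₀ _ hL.ne']) le_rfl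
      (by
        have h2 : 0 < 1 / (4 * L) := by positivity
        have h3 : 0 < 8 / L / 2 := by positivity
        linarith) (fun P hP => geo2 hL hP) Z m hm
    have e : -(c₁ * L * -(1 / (4 * L))) = c₁ / 4 := by field_simp
    rw [e, ← hK₀] at h1
    exact h1
  have hblk : ∀ j : ℕ, ∫ t in a..b, w t * ∑ s ∈ Z.filter (fun s =>
      (1 / 2 + 2 ^ j * (A₁ / L) ≤ s.re ∧ s.re ≤ 1 / 2 + 2 * (2 ^ j * (A₁ / L))) ∧
        |s.im - (t + x)| ≤ 1 / L), (m s : ℝ) ≤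
      K₀ * M * (Real.exp (-(c₁ / 4 * A)) * (1 / c₁ * ((2 : ℝ) ^ (j + 1))⁻¹)) := by
    intro j
    by_cases hr : 2 ^ j * (A₁ / L) ≤ 1 / 2
    · have h2j : (1 : ℝ) ≤ 2 ^ j := one_le_pow₀ (by norm_num)
      have e1 : L * (2 ^ j * (A₁ / L)) = 2 ^ j * A₁ := by field_simp
      have h8 : 8 ≤ L * (2 ^ j * (A₁ / L)) := by rw [e1]; nlinarith
      have h0 : 0 < 2 ^ j * (A₁ / L) := by positivity
      have h1 := h.block (r := 2 ^ j * (A₁ / L)) (d := 2 ^ j * (A₁ / L) / 2)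
        (e := 2 ^ j * (A₁ / L)) h0 hr h8
        (by have h2 : 0 < 1 / (4 * L) := by positivity
            linarith) le_rfl (fun P hP => geo1 hL h8 hP) Z m hm
      rw [← hK₀] at h1
      refine h1.trans ?_
      refine mul_le_mul_of_nonneg_left ?_ (by positivity)
      have h3 : Real.exp (-(c₁ * L * (2 ^ j * (A₁ / L) / 2))) ≤
          Real.exp (-(c₁ / 4 * A)) * Real.exp (-(2 * c₁ * 2 ^ j)) := by
        rw [← Real.exp_add]
        apply Real.exp_le_exp.mpr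
        have e2 : c₁ * L * (2 ^ j * (A₁ / L) / 2) = c₁ * (2 ^ j * A₁) / 2 := by
          rw [← e1]; ring
        rw [e2]
        have h4 : A ≤ 2 ^ j * A₁ := by nlinarith
        have h5 : 2 ^ j * 8 ≤ 2 ^ j * A₁ := mul_le_mul_of_nonneg_left hA18 (by positivity)
        have h6 : c₁ * A ≤ c₁ * (2 ^ j * A₁) := mul_le_mul_of_nonneg_left h4 hc0.le
        have h7 : c₁ * (2 ^ j * 8) ≤ c₁ * (2 ^ j * A₁) := mul_le_mul_of_nonneg_left h5 hc0.le
        linarith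
      refine h3.trans (mul_le_mul_of_nonneg_left ?_ (Real.exp_pos _).le)
      have h5 : (0 : ℝ) < 2 * c₁ * 2 ^ j := by positivity
      have e3 : 1 / c₁ * ((2 : ℝ) ^ (j + 1))⁻¹ = (2 * c₁ * 2 ^ j)⁻¹ := by
        rw [pow_succ]
        field_simp
      rw [Real.exp_neg, e3]
      have h6 := Real.add_one_le_exp (2 * c₁ * 2 ^ j)
      exact inv_anti₀ h5 (by linarith)
    · have hF : ∀ t : ℝ, Z.filter (fun s =>
          (1 / 2 + 2 ^ j * (A₁ / L) ≤ s.re ∧ s.re ≤ 1 / 2 + 2 * (2 ^ j * (A₁ / L))) ∧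
          |s.im - (t + x)| ≤ 1 / L) = ∅ := by
        intro t
        refine Finset.filter_eq_empty_iff.mpr fun s hs hh => ?_
        have := (hZ s hs).1
        linarith [hh.1.1]
      simp_rw [hF, Finset.sum_empty, mul_zero, intervalIntegral.integral_zero]
      positivity
  -- integration
  have hi0 := cnt_int h.wc Z m (fun s => 1 / 2 + A / L ≤ s.re) (1 / L) x a b
    (fun t => Z.filter (fun s => 1 / 2 + A / L ≤ s.re ∧ |s.im - (t + x)| ≤ 1 / L))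
    (fun t s => Finset.mem_filter)
  have hi1 := cnt_int h.wc Z m (fun s => 1 / 2 + 0 ≤ s.re ∧ s.re ≤ 1 / 2 + 2 * (8 / L)) (1 / L)
    x a b (fun t => Z.filter (fun s => (1 / 2 + 0 ≤ s.re ∧ s.re ≤ 1 / 2 + 2 * (8 / L)) ∧
      |s.im - (t + x)| ≤ 1 / L)) (fun t s => Finset.mem_filter)
  have hi2 : ∀ j ∈ Finset.range J, IntervalIntegrable (fun t => w t * ∑ s ∈ Z.filter (fun s =>
      (1 / 2 + 2 ^ j * (A₁ / L) ≤ s.re ∧ s.re ≤ 1 / 2 + 2 * (2 ^ j * (A₁ / L))) ∧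
        |s.im - (t + x)| ≤ 1 / L), (m s : ℝ)) volume a b := fun j _ =>
    cnt_int h.wc Z m (fun s => 1 / 2 + 2 ^ j * (A₁ / L) ≤ s.re ∧
      s.re ≤ 1 / 2 + 2 * (2 ^ j * (A₁ / L))) (1 / L) x a b _ (fun t s => Finset.mem_filter)
  have hi3 := IntervalIntegrable.sum (μ := volume) (a := a) (b := b) (Finset.range J) hi2
  rw [Finset.sum_fn] at hi3
  have hi4 := (hi1.const_mul (if A < 8 then (1 : ℝ) else 0)).add hi3
  have h1 := intervalIntegral.integral_mono_on h.ab hi0 hi4 (fun t _ => by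
    have h2 := mul_le_mul_of_nonneg_left
      (split hL hA hA₁ Z m (fun s hs => (hZ s hs).1) hJ (t + x)) (h.w0 t)
    refine h2.trans (le_of_eq ?_)
    rw [mul_add, Finset.mul_sum (Finset.range J), mul_left_comm])
  refine h1.trans ?_
  rw [intervalIntegral.integral_add (hi1.const_mul _) hi3,
    intervalIntegral.integral_const_mul, intervalIntegral.integral_finsetSum hi2]
  have h3 : (if A < 8 then (1 : ℝ) else 0) * (∫ t in a..b, w t *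
      ∑ s ∈ Z.filter (fun s => (1 / 2 + 0 ≤ s.re ∧ s.re ≤ 1 / 2 + 2 * (8 / L)) ∧
      |s.im - (t + x)| ≤ 1 / L), (m s : ℝ)) ≤
      K₀ * M * (Real.exp (-(c₁ / 4 * A)) * Real.exp (9 * c₁ / 4)) := by
    by_cases hA8 : A < 8
    · rw [if_pos hA8, one_mul]
      refine hneg.trans (mul_le_mul_of_nonneg_left ?_ (by positivity))
      rw [← Real.exp_add]
      apply Real.exp_le_exp.mpr
      nlinarith
    · rw [if_neg hA8, zero_mul]
      positivity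
  have h4 := Finset.sum_le_sum (fun j (_ : j ∈ Finset.range J) => hblk j)
  rw [← Finset.mul_sum, ← Finset.mul_sum, ← Finset.mul_sum] at h4
  have h5 : K₀ * M * (Real.exp (-(c₁ / 4 * A)) *
      (1 / c₁ * ∑ j ∈ Finset.range J, ((2 : ℝ) ^ (j + 1))⁻¹)) ≤
      K₀ * M * (Real.exp (-(c₁ / 4 * A)) * (1 / c₁ * 1)) := by
    refine mul_le_mul_of_nonneg_left (mul_le_mul_of_nonneg_left
      (mul_le_mul_of_nonneg_left (geom_le J) (by positivity)) (Real.exp_pos _).le) (by positivity)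
  refine (add_le_add h3 (h4.trans h5)).trans (le_of_eq ?_)
  rw [← hK₀]
  ring

open Classical in
/-- **from the decay of the mean square to the number of zeros** -/
theorem jen_core (c₁ C₁ : ℝ) (hc : 0 < c₁) (hC : 0 < C₁) : ∃ c C L₀ : ℝ, 0 < c ∧ 0 < C ∧
  1 ≤ L₀ ∧ ∀ L : ℝ, L₀ ≤ L → ∀ f : ℂ → ℂ, (∀ z : ℂ, 1 < z.im → DifferentiableAt ℂ f z) →
  (∀ z : ℂ, 1 < z.im → 3 ≤ z.re → ‖f z‖ ≤ 1 / 2) →
  ∀ (a b x M : ℝ) (w : ℝ → ℝ), a ≤ b → 50 ≤ a + x → Continuous w → (∀ t, 0 ≤ w t) → 0 ≤ M →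
  (∀ ρ y : ℝ, -(1 / (2 * L)) ≤ ρ → ρ ≤ 30 → |y| ≤ 30 →
    ∫ t in a..b, w t * ‖f (pt (1 / 2 + ρ) (t + x + y))‖ ^ 2 ≤
      C₁ * Real.exp (-(c₁ * L * ρ)) * M) →
  ∀ (Z : Finset ℂ) (m : ℂ → ℕ), (∀ s ∈ Z, 1 < s.im ∧ s.re ≤ 1 ∧
    m s ≤ analyticOrderNatAt (fun z => 1 + f z) s) →
  ∀ A : ℝ, 0 ≤ A →
  ∫ t in a..b, w t * ∑ s ∈ Z.filter (fun s => 1 / 2 + A / L ≤ s.re ∧ |s.im - (t + x)| ≤ 1 / L),
    (m s : ℝ) ≤ C * Real.exp (-(c * A)) * M := by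
  refine ⟨c₁ / 4, 200 * C₁ * (3 + Real.exp c₁ / c₁ ^ 2) * (Real.exp (9 * c₁ / 4) + 1 / c₁), 16,
    by positivity, by positivity, by norm_num, ?_⟩
  intro L hL f df bd a b x M w hab hax hw hw0 hM hint Z m hZ A hA
  have h : Hyp c₁ C₁ L f a b x M w := ⟨hc, hC, hL, df, bd, hab, hax, hw, hw0, hM, hint⟩
  exact h.total Z m (fun s hs => (hZ s hs).2) hA

end Pool.Agent.N935.WD
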