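import Pool.Agent.R399.TW.Gauss

/-!
# Jensen's inequality on a disc, for functions analytic near the disc
-/

set_option linter.unusedSectionVars false

namespace Pool.Agent.N935.WD

open MeasureTheory Set Filter Topology Complex Metric
open Pool.Agent.R399.TW (pt pt_re pt_im pt_cont)

/-- Jensen's inequality for a finite set of points in a disc -/
lemma jensen_fin {g : ℂ → ℂ} {c : ℂ} {ρ : ℝ} (hρ : 0 < ρ)
    (hg : AnalyticOnNhd ℂ g (closedBall c ρ)) (hc : g c ≠ 0) {Z : Finset ℂ}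
    (hZ : ∀ z ∈ Z, ‖c - z‖ ≤ ρ) :
    ∑ z ∈ Z, (analyticOrderNatAt g z : ℝ) * Real.log (ρ * ‖c - z‖⁻¹) ≤
      Real.circleAverage (fun z => Real.log ‖g z‖) c ρ - Real.log ‖g c‖ := by
  have hgb : AnalyticOnNhd ℂ g (closedBall c |ρ|) := by rwa [abs_of_pos hρ]
  rw [hgb.circleAverage_log_norm hρ.ne' hc, add_sub_cancel_right]
  have hfin := (MeromorphicOn.divisor g (closedBall c |ρ|)).finiteSupport
    (isCompact_closedBall c |ρ|)
  have hone : ∀ z ∈ closedBall c |ρ|, (MeromorphicOn.divisor g (closedBall c |ρ|) z : ℝ) =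
      analyticOrderNatAt g z := by
    intro z hz
    rw [MeromorphicOn.AnalyticOnNhd.divisor_apply hgb hz]
    unfold analyticOrderNatAt
    cases h : analyticOrderAt g z with
    | top => simp
    | coe n => simp
  have hnn : ∀ z, 0 ≤ (MeromorphicOn.divisor g (closedBall c |ρ|) z : ℝ) *
      Real.log (ρ * ‖c - z‖⁻¹) := by
    intro z
    by_cases hz : z ∈ closedBall c |ρ|
    · rw [hone z hz]
      refine mul_nonneg (Nat.cast_nonneg _) ?_
      rw [mem_closedBall, dist_comm, dist_eq_norm, abs_of_pos hρ] at hz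
      rcases (norm_nonneg (c - z)).eq_or_lt with h | h
      · rw [← h]; simp
      · refine Real.log_nonneg ?_
        rw [← div_eq_mul_inv, le_div_iff₀ h]
        linarith
    · rw [Function.locallyFinsuppWithin.apply_eq_zero_of_notMem _ hz]
      simp
  have hsup : (Function.support fun z => (MeromorphicOn.divisor g (closedBall c |ρ|) z : ℝ) *
      Real.log (ρ * ‖c - z‖⁻¹)) ⊆ (hfin.toFinset ∪ Z : Finset ℂ) := by
    intro z hz
    rw [Function.mem_support] at hz
    simp only [Finset.coe_union, Set.mem_union]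
    left
    rw [Finset.mem_coe, Set.Finite.mem_toFinset, Function.mem_support]
    intro h
    rw [h] at hz
    simp at hz
  rw [finsum_eq_sum_of_support_subset _ hsup]
  refine le_trans (Finset.sum_le_sum fun z hz => ?_)
    (Finset.sum_le_sum_of_subset_of_nonneg Finset.subset_union_right fun z _ _ => hnn z)
  rw [hone z]
  rw [mem_closedBall, dist_comm, dist_eq_norm, abs_of_pos hρ]
  exact hZ z hz

/-- the order of a zero of `1 + f` is at most the order for `1 - f ^ 2` -/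
lemma order_le {f : ℂ → ℂ} {c : ℂ} {ρ : ℝ} (hρ : 0 < ρ)
    (hf : AnalyticOnNhd ℂ f (closedBall c ρ)) (hc : 1 - f c ^ 2 ≠ 0) {z : ℂ}
    (hz : z ∈ closedBall c ρ) :
    analyticOrderNatAt (fun s => 1 + f s) z ≤ analyticOrderNatAt (fun s => 1 - f s ^ 2) z := by
  have hg : AnalyticOnNhd ℂ (fun s => 1 - f s ^ 2) (closedBall c ρ) := fun s hs =>
    analyticAt_const.sub ((hf s hs).pow 2)
  have hcc : c ∈ closedBall c ρ := mem_closedBall_self hρ.le
  have h0 : analyticOrderAt (fun s => 1 - f s ^ 2) c ≠ ⊤ := by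
    rw [(hg c hcc).analyticOrderAt_eq_zero.mpr hc]
    simp
  have h1 := hg.analyticOrderAt_ne_top_of_isPreconnected (convex_closedBall c ρ).isPreconnected
    hcc hz h0
  have e : (fun s => 1 - f s ^ 2) = (fun s => 1 + f s) * (fun s => 1 - f s) := by
    funext s
    simp only [Pi.mul_apply]
    ring
  have hp : AnalyticAt ℂ (fun s => 1 + f s) z := analyticAt_const.add (hf z hz)
  have hm : AnalyticAt ℂ (fun s => 1 - f s) z := analyticAt_const.sub (hf z hz)
  rw [e] at h1 ⊢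
  rw [analyticOrderAt_mul hp hm] at h1
  unfold analyticOrderNatAt
  rw [analyticOrderAt_mul hp hm]
  exact ENat.toNat_le_toNat (self_le_add_right _ _) h1

/-- Jensen's inequality for `1 - f ^ 2`, weighted -/
lemma jensen_pt {f : ℂ → ℂ} {c : ℂ} {ρ ω p q : ℝ} (hρ : 0 < ρ)
    (hf : AnalyticOnNhd ℂ f (closedBall c ρ)) (hc : ‖f c‖ ^ 2 ≤ 1 / 2) {Z : Finset ℂ}
    (hZ : ∀ z ∈ Z, ‖c - z‖ ≤ ρ) (hω0 : 0 ≤ ω)
    (hω : ∀ z ∈ Z, c ≠ z → ω ≤ Real.log (ρ * ‖c - z‖⁻¹)) (m : ℂ → ℕ)
    (hm : ∀ z ∈ Z, m z ≤ analyticOrderNatAt (fun s => 1 + f s) z)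
    (hpq : ∀ y : ℝ, 0 ≤ y → y ^ 2 ≤ p + q * y ^ 2 ∨ 2 * y ≤ p + q * y ^ 2) :
    (∑ z ∈ Z, (m z : ℝ)) * ω ≤
      p + q * Real.circleAverage (fun z => ‖f z‖ ^ 2) c ρ + 2 * ‖f c‖ ^ 2 := by
  set h : ℂ → ℂ := fun s => 1 - f s ^ 2 with hh
  have hhd : AnalyticOnNhd ℂ h (closedBall c ρ) := fun s hs =>
    analyticAt_const.sub ((hf s hs).pow 2)
  have hlow : 1 - ‖f c‖ ^ 2 ≤ ‖h c‖ := by
    have h1 := norm_sub_norm_le (1 : ℂ) (f c ^ 2)
    rw [norm_one, norm_pow] at h1
    exact h1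
  have hc0 : h c ≠ 0 := by
    intro h0
    rw [h0, norm_zero] at hlow
    linarith
  have h1 := jensen_fin hρ hhd hc0 hZ
  have h2 : (∑ z ∈ Z, (m z : ℝ)) * ω ≤
      ∑ z ∈ Z, (analyticOrderNatAt h z : ℝ) * Real.log (ρ * ‖c - z‖⁻¹) := by
    rw [Finset.sum_mul]
    refine Finset.sum_le_sum fun z hz => ?_
    have hzb : z ∈ closedBall c ρ := by
      rw [mem_closedBall, dist_comm, dist_eq_norm]
      exact hZ z hz
    have hmz : (m z : ℝ) ≤ analyticOrderNatAt h z :=
      Nat.cast_le.mpr ((hm z hz).trans (order_le hρ hf hc0 hzb))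
    by_cases hcz : c = z
    · have h3 : analyticOrderNatAt h z = 0 := by
        rw [← hcz]
        unfold analyticOrderNatAt
        rw [(hhd c (mem_closedBall_self hρ.le)).analyticOrderAt_eq_zero.mpr hc0]
        rfl
      rw [h3] at hmz ⊢
      have h4 : (m z : ℝ) = 0 := le_antisymm (by simpa using hmz) (Nat.cast_nonneg _)
      rw [h4]
      simp
    · exact mul_le_mul hmz (hω z hz hcz) hω0 (Nat.cast_nonneg _)
  have hfc : ContinuousOn (fun z => ‖f z‖ ^ 2) (closedBall c ρ) := (hf.continuousOn.norm).pow 2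
  have hci : CircleIntegrable (fun z => ‖f z‖ ^ 2) c ρ :=
    (hfc.mono sphere_subset_closedBall).circleIntegrable hρ.le
  have h4 : Real.circleAverage (fun z => Real.log ‖h z‖) c ρ ≤
      p + q * Real.circleAverage (fun z => ‖f z‖ ^ 2) c ρ := by
    have e : p + q * Real.circleAverage (fun z => ‖f z‖ ^ 2) c ρ =
        Real.circleAverage (fun z => p + q * ‖f z‖ ^ 2) c ρ := by
      have e1 : Real.circleAverage (fun z => p + q * ‖f z‖ ^ 2) c ρ =
          Real.circleAverage (fun _ => p) c ρ + Real.circleAverage (fun z => q * ‖f z‖ ^ 2) c ρ :=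
        Real.circleAverage_fun_add (circleIntegrable_const p c ρ) (hci.const_fun_smul (a := q))
      rw [e1, Real.circleAverage_const]
      congr 1
      exact (Real.circleAverage_fun_smul (a := q) (f := fun z => ‖f z‖ ^ 2)).symm
    rw [e]
    refine Real.circleAverage_mono ?_ ?_ ?_
    · have hm : MeromorphicOn h (sphere c |ρ|) := fun z hz =>
        (hhd z (sphere_subset_closedBall (by rwa [abs_of_pos hρ] at hz))).meromorphicAt
      exact hm.circleIntegrable_log_norm
    · exact (circleIntegrable_const p c ρ).add (hci.const_fun_smul (a := q))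
    · intro z _
      have h6 : ‖h z‖ ≤ 1 + ‖f z‖ ^ 2 := by
        have := norm_sub_le (1 : ℂ) (f z ^ 2)
        rw [norm_one, norm_pow] at this
        exact this
      rcases eq_or_ne (h z) 0 with h0 | h0
      · rw [h0, norm_zero, Real.log_zero]
        rcases hpq ‖f z‖ (norm_nonneg _) with h7 | h7
        · exact le_trans (by positivity) h7
        · exact le_trans (by positivity) h7
      · rcases hpq ‖f z‖ (norm_nonneg _) with h7 | h7
        · have h5 := Real.log_le_sub_one_of_pos (norm_pos_iff.mpr h0)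
          linarith
        · have h8 : ‖h z‖ ≤ (1 + ‖f z‖) ^ 2 := by nlinarith [norm_nonneg (f z)]
          have h9 := Real.log_le_log (norm_pos_iff.mpr h0) h8
          rw [Real.log_pow] at h9
          have h10 := Real.log_le_sub_one_of_pos (x := 1 + ‖f z‖) (by positivity)
          push_cast at h9
          linarith
  have h7 : -Real.log ‖h c‖ ≤ 2 * ‖f c‖ ^ 2 := by
    have hpos : 0 < ‖h c‖ := norm_pos_iff.mpr hc0
    have h8 := Real.one_sub_inv_le_log_of_pos hpos
    have h9 : ‖h c‖⁻¹ ≤ 1 + 2 * ‖f c‖ ^ 2 := by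
      rw [inv_le_comm₀ hpos (by positivity)]
      refine le_trans ?_ hlow
      rw [inv_le_iff_one_le_mul₀ (by positivity)]
      nlinarith [sq_nonneg ‖f c‖]
    linarith
  linarith

/-- the weight of a point in Jensen's formula -/
lemma wt {R D h κ : ℝ} (hR : 0 < R) {c z : ℂ} (h1 : 0 ≤ c.re - z.re) (h2 : c.re - z.re ≤ D)
    (h3 : |z.im - c.im| ≤ h) (hκ : 0 ≤ κ) (hD : D ^ 2 + h ^ 2 ≤ R ^ 2 * (1 - 2 * κ)) :
    ‖c - z‖ ≤ R ∧ (c ≠ z → κ ≤ Real.log (R * ‖c - z‖⁻¹)) := by
  have hsq : ‖c - z‖ ^ 2 ≤ R ^ 2 * (1 - 2 * κ) := by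
    rw [← Complex.normSq_eq_norm_sq, Complex.normSq_apply, Complex.sub_re, Complex.sub_im]
    have h4 : (c.re - z.re) ^ 2 ≤ D ^ 2 := pow_le_pow_left₀ h1 h2 2
    have h5 : (c.im - z.im) ^ 2 ≤ h ^ 2 := by
      rw [← sq_abs, abs_sub_comm]
      exact pow_le_pow_left₀ (abs_nonneg _) h3 2
    nlinarith
  constructor
  · refine le_of_sq_le_sq ?_ hR.le
    nlinarith [mul_nonneg (sq_nonneg R) hκ]
  · intro hne
    have hd : 0 < ‖c - z‖ := norm_pos_iff.mpr (sub_ne_zero.mpr hne)
    have h1 := Real.log_le_sub_one_of_pos (x := (‖c - z‖ / R) ^ 2) (by positivity)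
    rw [Real.log_pow, Real.log_div hd.ne' hR.ne', div_pow] at h1
    have h2 : ‖c - z‖ ^ 2 / R ^ 2 ≤ 1 - 2 * κ := by
      rw [div_le_iff₀ (by positivity)]
      linarith
    rw [Real.log_mul hR.ne' (inv_ne_zero hd.ne'), Real.log_inv]
    push_cast at h1
    linarith

end Pool.Agent.N935.WD
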