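import Pool.Agent.N935.WD.JenA

/-!
# The mean values on lines and circles
-/

set_option linter.unusedSectionVars false

namespace Pool.Agent.N935.WD

open MeasureTheory Set Filter Topology Complex Metric
open Pool.Agent.R399.TW (pt pt_re pt_im pt_cont)

/-- the hypotheses -/
structure Hyp (c₁ C₁ L : ℝ) (f : ℂ → ℂ) (a b x M : ℝ) (w : ℝ → ℝ) : Prop where
  c0 : 0 < c₁
  C0 : 0 < C₁
  L0 : 16 ≤ L
  df : ∀ z : ℂ, 1 < z.im → DifferentiableAt ℂ f z
  bd : ∀ z : ℂ, 1 < z.im → 3 ≤ z.re → ‖f z‖ ≤ 1 / 2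
  ab : a ≤ b
  ax : 50 ≤ a + x
  wc : Continuous w
  w0 : ∀ t, 0 ≤ w t
  M0 : 0 ≤ M
  int : ∀ ρ y : ℝ, -(1 / (2 * L)) ≤ ρ → ρ ≤ 30 → |y| ≤ 30 →
    ∫ t in a..b, w t * ‖f (pt (1 / 2 + ρ) (t + x + y))‖ ^ 2 ≤
      C₁ * Real.exp (-(c₁ * L * ρ)) * M

/-- a continuous extension of `|f| ^ 2` -/
noncomputable def Hf (f : ℂ → ℂ) (z : ℂ) : ℝ := ‖f (pt z.re (max z.im 2))‖ ^ 2

lemma Hf_nonneg (f : ℂ → ℂ) (z : ℂ) : 0 ≤ Hf f z := by unfold Hf; positivity

lemma Hf_eq (f : ℂ → ℂ) {z : ℂ} (h : 2 ≤ z.im) : Hf f z = ‖f z‖ ^ 2 := by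
  unfold Hf
  rw [max_eq_left h]
  congr 3
  apply Complex.ext <;> simp

lemma Hf_cont {f : ℂ → ℂ} (df : ∀ z : ℂ, 1 < z.im → DifferentiableAt ℂ f z) :
    Continuous (Hf f) := by
  have h1 : Continuous fun z : ℂ => pt z.re (max z.im 2) := by
    unfold Pool.Agent.R399.TW.pt
    fun_prop
  have h2 : Continuous fun z : ℂ => f (pt z.re (max z.im 2)) := by
    rw [continuous_iff_continuousAt]
    intro z
    refine ContinuousAt.comp (f := fun z : ℂ => pt z.re (max z.im 2)) ?_ h1.continuousAt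
    refine (df _ ?_).continuousAt
    rw [pt_im]
    exact lt_of_lt_of_le (by norm_num) (le_max_right _ _)
  exact h2.norm.pow 2

variable {c₁ C₁ L : ℝ} {f : ℂ → ℂ} {a b x M : ℝ} {w : ℝ → ℝ}

lemma Hyp.line (h : Hyp c₁ C₁ L f a b x M w) {ρ y : ℝ} (h1 : -(1 / (2 * L)) ≤ ρ) (h2 : ρ ≤ 30)
    (h3 : |y| ≤ 30) : ∫ t in a..b, w t * Hf f (pt (1 / 2 + ρ) (t + x + y)) ≤
      C₁ * Real.exp (-(c₁ * L * ρ)) * M := by
  refine le_trans (le_of_eq ?_) (h.int ρ y h1 h2 h3)
  refine intervalIntegral.integral_congr fun t ht => ?_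
  rw [uIcc_of_le h.ab] at ht
  have h4 : 2 ≤ (pt (1 / 2 + ρ) (t + x + y)).im := by
    rw [pt_im]
    linarith [ht.1, h.ax, (abs_le.mp h3).1]
  simp only [Hf_eq f h4]

lemma circ_cont (df : ∀ z : ℂ, 1 < z.im → DifferentiableAt ℂ f z) (σ x R : ℝ) :
    Continuous fun t : ℝ => Real.circleAverage (Hf f) (pt (1 / 2 + σ) (t + x)) R := by
  have hc : Continuous (Function.uncurry fun t θ : ℝ =>
      Hf f (circleMap (pt (1 / 2 + σ) (t + x)) R θ)) := by
    refine (Hf_cont df).comp ?_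
    unfold circleMap Pool.Agent.R399.TW.pt
    fun_prop
  have h1 : Continuous fun t : ℝ => ∫ θ in (0 : ℝ)..2 * Real.pi,
      Hf f (circleMap (pt (1 / 2 + σ) (t + x)) R θ) :=
    intervalIntegral.continuous_parametric_intervalIntegral_of_continuous' hc _ _
  unfold Real.circleAverage
  simp only [smul_eq_mul]
  exact continuous_const.mul h1

lemma circleMap_pt (σ s R θ : ℝ) :
    circleMap (pt (1 / 2 + σ) s) R θ = pt (1 / 2 + (σ + R * Real.cos θ)) (s + R * Real.sin θ) := by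
  unfold circleMap Pool.Agent.R399.TW.pt
  rw [Complex.exp_mul_I, ← Complex.ofReal_cos, ← Complex.ofReal_sin]
  push_cast
  ring

lemma Hyp.circ (h : Hyp c₁ C₁ L f a b x M w) {σ R : ℝ} (hR : 0 ≤ R)
    (h1 : -(1 / (2 * L)) ≤ σ - R) (h2 : σ + R ≤ 30) (h3 : R ≤ 30) :
    ∫ t in a..b, w t * Real.circleAverage (Hf f) (pt (1 / 2 + σ) (t + x)) R ≤
      C₁ * Real.exp (-(c₁ * L * (σ - R))) * M := by
  have hpi := Real.pi_pos
  have hc : Continuous (Function.uncurry fun t θ : ℝ =>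
      w t * Hf f (circleMap (pt (1 / 2 + σ) (t + x)) R θ)) := by
    refine (h.wc.comp continuous_fst).mul ((Hf_cont h.df).comp ?_)
    unfold circleMap Pool.Agent.R399.TW.pt
    fun_prop
  have e : ∫ t in a..b, w t * Real.circleAverage (Hf f) (pt (1 / 2 + σ) (t + x)) R =
      (2 * Real.pi)⁻¹ * ∫ θ in (0 : ℝ)..2 * Real.pi,
        ∫ t in a..b, w t * Hf f (circleMap (pt (1 / 2 + σ) (t + x)) R θ) := by
    rw [← intervalIntegral_intervalIntegral_swap, ← intervalIntegral.integral_const_mul]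
    · refine intervalIntegral.integral_congr fun t _ => ?_
      simp only [Real.circleAverage, smul_eq_mul]
      rw [intervalIntegral.integral_const_mul]
      ring
    · rw [uIoc_of_le h.ab, uIoc_of_le (by positivity)]
      exact (hc.continuousOn.integrableOn_compact
        (isCompact_Icc.prod isCompact_Icc)).mono_set
          (prod_mono Ioc_subset_Icc_self Ioc_subset_Icc_self)
  rw [e]
  have h4 : ∫ θ in (0 : ℝ)..2 * Real.pi,
      ∫ t in a..b, w t * Hf f (circleMap (pt (1 / 2 + σ) (t + x)) R θ) ≤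
      ∫ θ in (0 : ℝ)..2 * Real.pi, C₁ * Real.exp (-(c₁ * L * (σ - R))) * M := by
    refine intervalIntegral.integral_mono_on (by positivity) ?_ ?_ ?_
    · have hc2 : Continuous (Function.uncurry fun θ t : ℝ =>
          w t * Hf f (circleMap (pt (1 / 2 + σ) (t + x)) R θ)) := hc.comp continuous_swap
      exact (intervalIntegral.continuous_parametric_intervalIntegral_of_continuous' hc2 a
        b).intervalIntegrable _ _
    · exact intervalIntegrable_const
    · intro θ _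
      have hcos := Real.neg_one_le_cos θ
      have hcos' := Real.cos_le_one θ
      have hsin : |R * Real.sin θ| ≤ 30 := by
        rw [abs_mul, abs_of_nonneg hR]
        have := Real.abs_sin_le_one θ
        nlinarith
      have h5 := h.line (ρ := σ + R * Real.cos θ) (y := R * Real.sin θ) (by nlinarith)
        (by nlinarith) hsin
      simp_rw [circleMap_pt]
      refine h5.trans ?_
      have hL : 0 < L := by linarith [h.L0]
      have h6 : -(c₁ * L * (σ + R * Real.cos θ)) ≤ -(c₁ * L * (σ - R)) := by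
        have : c₁ * L * (σ - R) ≤ c₁ * L * (σ + R * Real.cos θ) := by
          refine mul_le_mul_of_nonneg_left (by nlinarith) (mul_pos h.c0 hL).le
        linarith
      have h7 := Real.exp_le_exp.mpr h6
      exact mul_le_mul_of_nonneg_right (mul_le_mul_of_nonneg_left h7 h.C0.le) h.M0
  rw [intervalIntegral.integral_const, smul_eq_mul, sub_zero] at h4
  calc (2 * Real.pi)⁻¹ * ∫ θ in (0 : ℝ)..2 * Real.pi,
        ∫ t in a..b, w t * Hf f (circleMap (pt (1 / 2 + σ) (t + x)) R θ) ≤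
      (2 * Real.pi)⁻¹ * (2 * Real.pi * (C₁ * Real.exp (-(c₁ * L * (σ - R))) * M)) :=
        mul_le_mul_of_nonneg_left h4 (by positivity)
    _ = C₁ * Real.exp (-(c₁ * L * (σ - R))) * M := by
        rw [← mul_assoc, inv_mul_cancel₀ (by positivity), one_mul]

end Pool.Agent.N935.WD
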