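import Pool.Agent.N935.WD.JenB

/-!
# The number of zeros of a block
-/

set_option linter.unusedSectionVars false

namespace Pool.Agent.N935.WD

open MeasureTheory Set Filter Topology Complex Metric
open Pool.Agent.R399.TW (pt pt_re pt_im pt_cont)

variable {c₁ C₁ L : ℝ} {f : ℂ → ℂ} {a b x M : ℝ} {w : ℝ → ℝ}

/-- the terms of the bound -/
noncomputable def Tt (c₁ L r d : ℝ) (f : ℂ → ℂ) (x : ℝ) : ℕ → ℝ → ℝ
  | 0, t => Real.circleAverage (Hf f) (pt (1 / 2 + 4 * r) (t + x)) (4 * r - d) +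
      2 * Hf f (pt (1 / 2 + 4 * r) (t + x))
  | k + 1, t => 2 * Real.exp (c₁ * L * (2 ^ (k + 1) * r)) *
        Hf f (pt (1 / 2 + 4 * (2 ^ k * r)) (t + x)) +
      2 * Real.exp (-(c₁ * L * (2 ^ (k + 1) * r))) *
        Real.circleAverage (Hf f) (pt (1 / 2 + 4 * (2 ^ (k + 1) * r)) (t + x))
          (4 * (2 ^ (k + 1) * r) - d) +
      2 * Hf f (pt (1 / 2 + 4 * (2 ^ (k + 1) * r)) (t + x))

lemma avg_nonneg (f : ℂ → ℂ) (c : ℂ) (R : ℝ) : 0 ≤ Real.circleAverage (Hf f) c R :=
  Real.circleAverage_nonneg_of_nonneg fun z _ => Hf_nonneg f z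

lemma Tt_nonneg (c₁ L r d : ℝ) (f : ℂ → ℂ) (x : ℝ) (k : ℕ) (t : ℝ) : 0 ≤ Tt c₁ L r d f x k t := by
  have h1 := Hf_nonneg f
  have h2 := avg_nonneg f
  cases k with
  | zero =>
    unfold Tt
    exact add_nonneg (h2 _ _) (mul_nonneg (by norm_num) (h1 _))
  | succ k =>
    unfold Tt
    refine add_nonneg (add_nonneg ?_ ?_) ?_
    · exact mul_nonneg (by positivity) (h1 _)
    · exact mul_nonneg (by positivity) (h2 _ _)
    · exact mul_nonneg (by norm_num) (h1 _)

lemma Tt_cont (df : ∀ z : ℂ, 1 < z.im → DifferentiableAt ℂ f z) (c₁ L r d x : ℝ) (k : ℕ) :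
    Continuous (Tt c₁ L r d f x k) := by
  have h1 : ∀ σ : ℝ, Continuous fun t : ℝ => Hf f (pt (1 / 2 + σ) (t + x)) := fun σ =>
    (Hf_cont df).comp ((pt_cont _).comp (continuous_id.add continuous_const))
  cases k with
  | zero =>
    unfold Tt
    exact (circ_cont df _ _ _).add (continuous_const.mul (h1 _))
  | succ k =>
    unfold Tt
    exact ((continuous_const.mul (h1 _)).add (continuous_const.mul (circ_cont df _ _ _))).add
      (continuous_const.mul (h1 _))

/-- the mean value of the first term -/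
lemma Hyp.T0 (h : Hyp c₁ C₁ L f a b x M w) {r d : ℝ} (hr0 : 0 < r) (hr : r ≤ 1 / 2)
    (hd1 : -(1 / (4 * L)) ≤ d) (hd2 : d ≤ r / 2) :
    ∫ t in a..b, w t * Tt c₁ L r d f x 0 t ≤ 3 * (C₁ * M * Real.exp (-(c₁ * L * d))) := by
  have hL : 0 < L := by linarith [h.L0]
  have hL1 : 1 / (4 * L) ≤ 1 / (2 * L) := by
    apply one_div_le_one_div_of_le (by positivity)
    linarith
  have hL2 : 1 / (4 * L) ≤ 1 := by
    rw [div_le_one (by positivity)]
    linarith [h.L0]
  have hL3 : 0 < 1 / (2 * L) := by positivity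
  have h1 := h.circ (σ := 4 * r) (R := 4 * r - d) (by linarith) (by linarith) (by linarith)
    (by linarith)
  have h2 := h.line (ρ := 4 * r) (y := 0) (by linarith) (by linarith) (by norm_num)
  have hcH : Continuous fun t : ℝ => Hf f (pt (1 / 2 + 4 * r) (t + x)) :=
    (Hf_cont h.df).comp ((pt_cont _).comp (continuous_id.add continuous_const))
  have e : ∫ t in a..b, w t * Tt c₁ L r d f x 0 t =
      (∫ t in a..b, w t * Real.circleAverage (Hf f) (pt (1 / 2 + 4 * r) (t + x)) (4 * r - d)) +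
      2 * ∫ t in a..b, w t * Hf f (pt (1 / 2 + 4 * r) (t + x + 0)) := by
    rw [← intervalIntegral.integral_const_mul, ← intervalIntegral.integral_add]
    · refine intervalIntegral.integral_congr fun t _ => ?_
      simp only [Tt, add_zero]
      ring
    · exact (h.wc.mul (circ_cont h.df _ _ _)).intervalIntegrable _ _
    · simp only [add_zero]
      exact (continuous_const.mul (h.wc.mul hcH)).intervalIntegrable _ _
  rw [e]
  have e2 : 4 * r - (4 * r - d) = d := by ring
  rw [e2] at h1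
  have h3 : Real.exp (-(c₁ * L * (4 * r))) ≤ Real.exp (-(c₁ * L * d)) := by
    apply Real.exp_le_exp.mpr
    have : c₁ * L * d ≤ c₁ * L * (4 * r) :=
      mul_le_mul_of_nonneg_left (by linarith) (mul_pos h.c0 hL).le
    linarith
  have h4 : C₁ * Real.exp (-(c₁ * L * (4 * r))) * M ≤ C₁ * Real.exp (-(c₁ * L * d)) * M :=
    mul_le_mul_of_nonneg_right (mul_le_mul_of_nonneg_left h3 h.C0.le) h.M0
  linarith

/-- the mean values of the other terms -/
lemma Hyp.T1 (h : Hyp c₁ C₁ L f a b x M w) {r d : ℝ} (hr0 : 0 < r)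
    (hd1 : -(1 / (4 * L)) ≤ d) (hd2 : d ≤ r / 2) (k : ℕ) (hk : 4 * (2 ^ (k + 1) * r) ≤ 5) :
    ∫ t in a..b, w t * Tt c₁ L r d f x (k + 1) t ≤
      6 * Real.exp c₁ * (C₁ * M * Real.exp (-(c₁ * L * (2 ^ (k + 1) * r)))) := by
  have hL : 0 < L := by linarith [h.L0]
  have hcL : 0 < c₁ * L := mul_pos h.c0 hL
  have hL1 : 1 / (4 * L) ≤ 1 / (2 * L) := by
    apply one_div_le_one_div_of_le (by positivity)
    linarith
  have hL2 : 1 / (4 * L) ≤ 1 := by
    rw [div_le_one (by positivity)]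
    linarith [h.L0]
  have hL3 : 0 < 1 / (2 * L) := by positivity
  obtain ⟨s, hs⟩ : ∃ s : ℝ, s = 2 ^ k * r := ⟨_, rfl⟩
  have hs0 : 0 < s := by rw [hs]; positivity
  have hs2 : 2 ^ (k + 1) * r = 2 * s := by rw [hs, pow_succ]; ring
  have hrs : r ≤ 2 * s := by
    rw [← hs2]
    have : (1 : ℝ) ≤ 2 ^ (k + 1) := one_le_pow₀ (by norm_num)
    nlinarith
  rw [hs2] at hk ⊢
  have h1 := h.circ (σ := 4 * (2 * s)) (R := 4 * (2 * s) - d) (by linarith) (by linarith)
    (by linarith) (by linarith)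
  have h2 := h.line (ρ := 4 * (2 * s)) (y := 0) (by linarith) (by linarith) (by norm_num)
  have h3 := h.line (ρ := 4 * s) (y := 0) (by linarith) (by linarith) (by norm_num)
  have hcH : ∀ σ : ℝ, Continuous fun t : ℝ => Hf f (pt (1 / 2 + σ) (t + x)) := fun σ =>
    (Hf_cont h.df).comp ((pt_cont _).comp (continuous_id.add continuous_const))
  have e : ∫ t in a..b, w t * Tt c₁ L r d f x (k + 1) t =
      2 * Real.exp (c₁ * L * (2 * s)) *
        (∫ t in a..b, w t * Hf f (pt (1 / 2 + 4 * s) (t + x + 0))) +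
      2 * Real.exp (-(c₁ * L * (2 * s))) *
      (∫ t in a..b, w t *
        Real.circleAverage (Hf f) (pt (1 / 2 + 4 * (2 * s)) (t + x)) (4 * (2 * s) - d)) +
      2 * ∫ t in a..b, w t * Hf f (pt (1 / 2 + 4 * (2 * s)) (t + x + 0)) := by
    rw [← intervalIntegral.integral_const_mul, ← intervalIntegral.integral_const_mul,
      ← intervalIntegral.integral_const_mul, ← intervalIntegral.integral_add,
      ← intervalIntegral.integral_add]
    · refine intervalIntegral.integral_congr fun t _ => ?_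
      simp only [Tt, add_zero, hs2, ← hs]
      ring
    · simp only [add_zero]
      exact ((continuous_const.mul (h.wc.mul (hcH _))).add
        (continuous_const.mul (h.wc.mul (circ_cont h.df _ _ _)))).intervalIntegrable _ _
    · simp only [add_zero]
      exact (continuous_const.mul (h.wc.mul (hcH _))).intervalIntegrable _ _
    · simp only [add_zero]
      exact (continuous_const.mul (h.wc.mul (hcH _))).intervalIntegrable _ _
    · exact (continuous_const.mul (h.wc.mul (circ_cont h.df _ _ _))).intervalIntegrable _ _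
  rw [e]
  have e2 : 4 * (2 * s) - (4 * (2 * s) - d) = d := by ring
  rw [e2] at h1
  obtain ⟨E, hE⟩ : ∃ E : ℝ, E = Real.exp (-(c₁ * L * (2 * s))) := ⟨_, rfl⟩
  have hE0 : 0 < E := by rw [hE]; exact Real.exp_pos _
  have hE1 : E ≤ 1 := by
    rw [hE, Real.exp_le_one_iff]
    have : 0 ≤ c₁ * L * (2 * s) := by positivity
    linarith
  have hc1 : 1 ≤ Real.exp c₁ := Real.one_le_exp h.c0.le
  -- the three pieces
  have k1 : Real.exp (c₁ * L * (2 * s)) * (C₁ * Real.exp (-(c₁ * L * (4 * s))) * M) =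
      C₁ * M * E := by
    have : Real.exp (c₁ * L * (2 * s)) * Real.exp (-(c₁ * L * (4 * s))) = E := by
      rw [hE, ← Real.exp_add]
      congr 1
      ring
    calc _ = C₁ * M * (Real.exp (c₁ * L * (2 * s)) * Real.exp (-(c₁ * L * (4 * s)))) := by ring
      _ = _ := by rw [this]
  have k2 : Real.exp (-(c₁ * L * d)) ≤ Real.exp c₁ := by
    apply Real.exp_le_exp.mpr
    have h5 : c₁ * L * (-(1 / (4 * L))) ≤ c₁ * L * d := mul_le_mul_of_nonneg_left hd1 hcL.le
    have h6 : c₁ * L * (-(1 / (4 * L))) = -(c₁ / 4) := by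
      field_simp
    have := h.c0
    linarith
  have k3 : Real.exp (-(c₁ * L * (4 * (2 * s)))) ≤ E := by
    rw [hE]
    apply Real.exp_le_exp.mpr
    have : c₁ * L * (2 * s) ≤ c₁ * L * (4 * (2 * s)) :=
      mul_le_mul_of_nonneg_left (by linarith) hcL.le
    linarith
  have hCM : 0 ≤ C₁ * M := mul_nonneg h.C0.le h.M0
  have p1 : 2 * Real.exp (c₁ * L * (2 * s)) *
      (∫ t in a..b, w t * Hf f (pt (1 / 2 + 4 * s) (t + x + 0))) ≤ 2 * (C₁ * M * E) := by
    rw [← k1, mul_assoc]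
    exact mul_le_mul_of_nonneg_left (mul_le_mul_of_nonneg_left h3 (Real.exp_pos _).le)
      (by norm_num)
  have p2 : 2 * Real.exp (-(c₁ * L * (2 * s))) *
      (∫ t in a..b, w t *
        Real.circleAverage (Hf f) (pt (1 / 2 + 4 * (2 * s)) (t + x)) (4 * (2 * s) - d)) ≤
      2 * (C₁ * M * E) * Real.exp c₁ := by
    rw [← hE]
    have q1 : C₁ * Real.exp (-(c₁ * L * d)) * M ≤ C₁ * M * Real.exp c₁ := by
      have := mul_le_mul_of_nonneg_left k2 hCM
      linarith
    have q2 := mul_le_mul_of_nonneg_left (h1.trans q1) (by positivity : 0 ≤ 2 * E)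
    calc _ ≤ 2 * E * (C₁ * M * Real.exp c₁) := q2
      _ = _ := by ring
  have p3 : 2 * ∫ t in a..b, w t * Hf f (pt (1 / 2 + 4 * (2 * s)) (t + x + 0)) ≤
      2 * (C₁ * M * E) := by
    have q1 : C₁ * Real.exp (-(c₁ * L * (4 * (2 * s)))) * M ≤ C₁ * M * E := by
      have := mul_le_mul_of_nonneg_left k3 hCM
      linarith
    linarith [h2.trans q1]
  rw [← hE] at p2 ⊢
  have q : C₁ * M * E ≤ C₁ * M * E * Real.exp c₁ :=
    le_mul_of_one_le_right (mul_nonneg hCM hE0.le) hc1
  linarith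

end Pool.Agent.N935.WD
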